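import Pool.Agent.TW54.Defs

/-!
# TW54/Count: counting sets with at most three elements

`all_hit`: every `i ∈ P` is in at least `(q - 1) / 2` of the sets `tri y` (each of them contains at most two other elements), `q = P.card`; the sum over `i ∈ P`
is at most `3 N.card`. So `q (q - 1) ≤ 6 t`, and for `q = 4` even `4 * 2 ≤ 3 t`; with `t + 2 ≤ q` only `q = 3`, `t = 1` is left (`q = 2`, `t = 0`: the pair is not hit).
`cross_hit`: `A ×ˢ B` is covered by the sets `(tri y ∩ A) ×ˢ (tri y ∩ B)`, each with at most two elements (`x + y ≤ 3` gives `x y ≤ 2`).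
-/

set_option autoImplicit false

namespace Pool.Agent.TW54

theorem cross_hit {α V : Type} [DecidableEq α] (A B : Finset α) (hd : Disjoint A B)
    (N : Finset V) (tri : V → Finset α) (h3 : ∀ y, (tri y).card ≤ 3)
    (h : ∀ i ∈ A, ∀ j ∈ B, ∃ y ∈ N, i ∈ tri y ∧ j ∈ tri y) :
    A.card * B.card ≤ 2 * N.card := by
  classical
  rw [← Finset.card_product]
  have hsub : A ×ˢ B ⊆ N.biUnion (fun y => (tri y ∩ A) ×ˢ (tri y ∩ B)) := by
    rintro ⟨i, j⟩ hij
    rw [Finset.mem_product] at hij
    obtain ⟨y, hy, h1, h2⟩ := h i hij.1 j hij.2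
    exact Finset.mem_biUnion.2 ⟨y, hy, Finset.mem_product.2
      ⟨Finset.mem_inter.2 ⟨h1, hij.1⟩, Finset.mem_inter.2 ⟨h2, hij.2⟩⟩⟩
  refine (Finset.card_le_card hsub).trans (Finset.card_biUnion_le.trans ?_)
  have hy : ∀ y ∈ N, ((tri y ∩ A) ×ˢ (tri y ∩ B)).card ≤ 2 := by
    intro y _
    rw [Finset.card_product]
    have hdis : Disjoint (tri y ∩ A) (tri y ∩ B) :=
      hd.mono Finset.inter_subset_right Finset.inter_subset_right
    have hu : (tri y ∩ A ∪ tri y ∩ B).card ≤ 3 :=
      (Finset.card_le_card (Finset.union_subset Finset.inter_subset_left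
        Finset.inter_subset_left)).trans (h3 y)
    rw [Finset.card_union_of_disjoint hdis] at hu
    generalize (tri y ∩ A).card = u at hu ⊢
    generalize (tri y ∩ B).card = w at hu ⊢
    have hu3 : u ≤ 3 := by omega
    interval_cases u <;> omega
  calc ∑ y ∈ N, ((tri y ∩ A) ×ˢ (tri y ∩ B)).card ≤ ∑ _y ∈ N, 2 := Finset.sum_le_sum hy
    _ = 2 * N.card := by
      rw [Finset.sum_const, smul_eq_mul, mul_comm]

theorem all_hit {α V : Type} [DecidableEq α] (P : Finset α) (N : Finset V)
    (tri : V → Finset α) (h3 : ∀ y, (tri y).card ≤ 3)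
    (h : ∀ i ∈ P, ∀ j ∈ P, i ≠ j → ∃ y ∈ N, i ∈ tri y ∧ j ∈ tri y)
    (h2 : N.card + 2 ≤ P.card) : P.card = 3 ∧ N.card = 1 := by
  classical
  -- the number of sets containing `i`
  have hd : ∀ i ∈ P, P.card ≤ 2 * (N.filter (fun y => i ∈ tri y)).card + 1 := by
    intro i hi
    have hsub : P.erase i ⊆ (N.filter (fun y => i ∈ tri y)).biUnion
        (fun y => (tri y).erase i) := by
      intro j hj
      rw [Finset.mem_erase] at hj
      obtain ⟨y, hy, h1, h2⟩ := h i hi j hj.2 (Ne.symm hj.1)
      exact Finset.mem_biUnion.2 ⟨y, Finset.mem_filter.2 ⟨hy, h1⟩,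
        Finset.mem_erase.2 ⟨hj.1, h2⟩⟩
    have h4 := (Finset.card_le_card hsub).trans Finset.card_biUnion_le
    rw [Finset.card_erase_of_mem hi] at h4
    have h5 : ∑ y ∈ N.filter (fun y => i ∈ tri y), ((tri y).erase i).card ≤
        ∑ _y ∈ N.filter (fun y => i ∈ tri y), 2 := by
      refine Finset.sum_le_sum fun y hy => ?_
      rw [Finset.mem_filter] at hy
      rw [Finset.card_erase_of_mem hy.2]
      have := h3 y
      omega
    rw [Finset.sum_const, smul_eq_mul] at h5
    omega
  have hsum : ∑ i ∈ P, (N.filter (fun y => i ∈ tri y)).card ≤ 3 * N.card := by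
    have h6 : ∑ i ∈ P, (N.filter (fun y => i ∈ tri y)).card =
        ∑ y ∈ N, (P.filter (fun i => i ∈ tri y)).card := by
      simp only [Finset.card_filter]
      exact Finset.sum_comm
    rw [h6]
    calc ∑ y ∈ N, (P.filter (fun i => i ∈ tri y)).card ≤ ∑ _y ∈ N, 3 := by
          refine Finset.sum_le_sum fun y _ => ?_
          refine (Finset.card_le_card ?_).trans (h3 y)
          intro i hi
          exact (Finset.mem_filter.1 hi).2
      _ = 3 * N.card := by rw [Finset.sum_const, smul_eq_mul, mul_comm]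
  have hlow : P.card * (P.card / 2) ≤ 3 * N.card := by
    refine le_trans ?_ hsum
    calc P.card * (P.card / 2) = ∑ _i ∈ P, P.card / 2 := by rw [Finset.sum_const, smul_eq_mul]
      _ ≤ ∑ i ∈ P, (N.filter (fun y => i ∈ tri y)).card := by
        refine Finset.sum_le_sum fun i hi => ?_
        have := hd i hi
        omega
  have hne : P.Nonempty := Finset.card_pos.1 (by omega)
  obtain ⟨i, hi⟩ := hne
  have hdi := hd i hi
  have hle : (N.filter (fun y => i ∈ tri y)).card ≤ N.card := Finset.card_filter_le _ _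
  generalize P.card = q at *
  generalize N.card = t at *
  by_cases hq : q < 6
  · interval_cases q <;> omega
  · exfalso
    push Not at hq
    have h7 : 3 ≤ q / 2 := by omega
    have h8 : q * 3 ≤ q * (q / 2) := Nat.mul_le_mul_left q h7
    omega

end Pool.Agent.TW54
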