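import Pool.Agent.TW54.Defs

/-!
# TW54/Sides: the sides of an edge of the decomposition tree

`far_or`: `T` is connected; the walk from `u` to `s` in `T`, up to its first use of the edge `t s`. `far_not`: the edge `t s` is a bridge
(`SimpleGraph.isAcyclic_iff_forall_adj_isBridge`). `on_or`: `vert`, `far_or`. `on_not`: if `v` is not in both bags `X t`, `X s`, then the nodes with `v` in the bag are
connected in `T` (`conn`) by edges different from `t s`, so they are all on the same side. `on_conn`: along the edges of `K` (adjacent vertices are in a common bag) and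
`on_not`. `on_exists`: take `v ∈ K`, a node `u` with `v ∈ X u`, so `u ≠ t`; the path from `t` to `u` in `T` starts with an edge `t s` and avoids it later, so `Far T t s u`; then
`on_conn` (`K` is disjoint from `X t`).
-/

set_option autoImplicit false

namespace Pool.Agent.TW54

variable {V ι : Type} {G : SimpleGraph V} {T : SimpleGraph ι} {X : ι → Finset V}

theorem far_or (hT : T.IsTree) {t s : ι} (_hts : T.Adj t s) (u : ι) :
    Far T t s u ∨ Far T s t u := by
  obtain ⟨p⟩ := hT.connected.preconnected u s
  have key : ∀ {x y : ι} (_ : T.Walk x y), y = s → Far T t s x ∨ Far T s t x := by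
    intro x y q
    induction q with
    | nil =>
      rintro rfl
      exact Or.inl (SimpleGraph.Reachable.refl _)
    | cons hab q ih =>
      rename_i a b c
      intro hc
      by_cases he : s(a, b) = s(t, s)
      · rw [Sym2.eq_iff] at he
        rcases he with ⟨h1, -⟩ | ⟨h1, -⟩
        · right
          rw [h1]
          exact SimpleGraph.Reachable.refl _
        · left
          rw [h1]
          exact SimpleGraph.Reachable.refl _
      · have h1 : (T.deleteEdges {s(t, s)}).Adj a b := by
          rw [SimpleGraph.deleteEdges_adj]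
          exact ⟨hab, he⟩
        have h2 : (T.deleteEdges {s(s, t)}).Adj a b := by
          rw [SimpleGraph.deleteEdges_adj]
          refine ⟨hab, ?_⟩
          rw [Sym2.eq_swap (a := s) (b := t)]
          exact he
        rcases ih hc with h3 | h3
        · exact Or.inl (h1.reachable.trans h3)
        · exact Or.inr (h2.reachable.trans h3)
  exact key p rfl

theorem far_not (hT : T.IsTree) {t s : ι} (hts : T.Adj t s) {u : ι} (h1 : Far T t s u)
    (h2 : Far T s t u) : False := by
  have h3 : (T.deleteEdges {s(t, s)}).Reachable u t := by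
    unfold Far at h2
    rw [Sym2.eq_swap (a := s) (b := t)] at h2
    exact h2
  have h4 : (T.deleteEdges {s(t, s)}).Reachable t s := h3.symm.trans h1
  have hb := (SimpleGraph.isAcyclic_iff_forall_adj_isBridge.1 hT.isAcyclic) hts
  rw [SimpleGraph.isBridge_iff] at hb
  exact hb h4

theorem on_or (hX : TreeDec G T X) {t s : ι} (hts : T.Adj t s) (v : V) :
    On T X t s v ∨ On T X s t v := by
  obtain ⟨u, hu⟩ := hX.vert v
  rcases far_or hX.tree hts u with h | h
  · exact Or.inl ⟨u, hu, h⟩
  · exact Or.inr ⟨u, hu, h⟩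

theorem on_not (hX : TreeDec G T X) {t s : ι} (hts : T.Adj t s) {v : V}
    (hv : ¬ (v ∈ X t ∧ v ∈ X s)) (h1 : On T X t s v) (h2 : On T X s t v) : False := by
  obtain ⟨u, hu, h1⟩ := h1
  obtain ⟨u', hu', h2⟩ := h2
  have hr := hX.conn v ⟨u, hu⟩ ⟨u', hu'⟩
  let φ : T.induce {t | v ∈ X t} →g T.deleteEdges {s(t, s)} :=
    { toFun := fun x => x.1
      map_rel' := by
        intro x y hxy
        rw [SimpleGraph.deleteEdges_adj]
        refine ⟨hxy, ?_⟩
        intro he
        have he' : s(x.1, y.1) = s(t, s) := he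
        rw [Sym2.eq_iff] at he'
        rcases he' with ⟨ha, hb⟩ | ⟨ha, hb⟩
        · apply hv
          rw [← ha, ← hb]
          exact ⟨x.2, y.2⟩
        · apply hv
          rw [← ha, ← hb]
          exact ⟨y.2, x.2⟩ }
  have h3 : (T.deleteEdges {s(t, s)}).Reachable u u' := hr.map φ
  exact far_not hX.tree hts (h3.symm.trans h1) h2

theorem on_conn (hX : TreeDec G T X) {t s : ι} (hts : T.Adj t s) {K : Set V}
    (hK : (G.induce K).Preconnected) (hd : ∀ v ∈ K, ¬ (v ∈ X t ∧ v ∈ X s)) {v w : V}
    (hv : v ∈ K) (hw : w ∈ K) (h : On T X t s v) : On T X t s w := by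
  obtain ⟨p⟩ := hK ⟨v, hv⟩ ⟨w, hw⟩
  have key : ∀ (x y : K), (G.induce K).Walk x y → On T X t s x.1 → On T X t s y.1 := by
    intro x y q
    induction q with
    | nil => exact fun h => h
    | @cons a b c hab _ ih =>
      intro ha
      apply ih
      obtain ⟨u, hu1, hu2⟩ := hX.edge a.1 b.1 hab
      rcases far_or hX.tree hts u with h1 | h1
      · exact ⟨u, hu2, h1⟩
      · exact (on_not hX hts (hd a.1 a.2) ha ⟨u, hu1, h1⟩).elim
  exact key ⟨v, hv⟩ ⟨w, hw⟩ p h

theorem on_exists (hX : TreeDec G T X) (t : ι) {K : Set V}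
    (hK : (G.induce K).Preconnected) (hne : K.Nonempty) (hd : ∀ v ∈ K, v ∉ X t) :
    ∃ s, T.Adj t s ∧ ∀ v ∈ K, On T X t s v := by
  classical
  obtain ⟨v, hv⟩ := hne
  obtain ⟨u, hu⟩ := hX.vert v
  have hut : t ≠ u := by
    rintro rfl
    exact hd v hv hu
  obtain ⟨q⟩ := hX.tree.connected.preconnected t u
  obtain ⟨p, hp⟩ : ∃ p : T.Walk t u, p.IsPath := ⟨q.bypass, q.bypass_isPath⟩
  cases p with
  | nil => exact (hut rfl).elim
  | @cons _ s _ hts p' =>
    rw [SimpleGraph.Walk.cons_isPath_iff] at hp
    have hnot : s(t, s) ∉ p'.edges := fun he =>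
      hp.2 (p'.fst_mem_support_of_mem_edges he)
    refine ⟨s, hts, fun w hw => on_conn hX hts hK (fun x hx h => hd x hx h.1) hv hw
      ⟨u, hu, ?_⟩⟩
    exact (p'.toDeleteEdge s(t, s) hnot).reachable.symm

end Pool.Agent.TW54
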