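import Mathlib

/-!
# TW54/SinkS98: an orientation of a finite tree has a sink
-/

set_option autoImplicit false

namespace Pool.Agent.TW54.SinkS98

theorem exists_sink {ι : Type} [Finite ι] {T : SimpleGraph ι} (hT : T.IsTree)
    (Out : ι → ι → Prop) (h : ∀ t s, T.Adj t s → ¬ (Out t s ∧ Out s t)) :
    ∃ t, ∀ s, T.Adj t s → ¬ Out t s := by
  classical
  have : Fintype ι := Fintype.ofFinite ι
  by_contra hcon
  push Not at hcon
  choose f hf using hcon
  have hinj : Function.Injective (fun t => s(t, f t)) := by
    intro t t' htt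
    by_contra hne
    have h1 : s(t, f t) = s(t', f t') := htt
    rw [Sym2.eq_iff] at h1
    rcases h1 with h1 | h1
    · exact hne h1.1
    · have h2 := hf t
      have h3 := hf t'
      rw [← h1.1, ← h1.2] at h3
      exact h t (f t) h2.1 ⟨h2.2, h3.2⟩
  have h1 : Fintype.card ι ≤ T.edgeFinset.card := by
    rw [← Finset.card_univ]
    refine Finset.card_le_card_of_injOn (fun t => s(t, f t)) ?_ hinj.injOn
    intro t _
    rw [Finset.mem_coe, SimpleGraph.mem_edgeFinset, SimpleGraph.mem_edgeSet]
    exact (hf t).1
  have h2 := hT.card_edgeFinset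
  omega

end Pool.Agent.TW54.SinkS98
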