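import Pool.Agent.TW54.Defs
import Pool.Agent.TW54.SinkS98

/-!
# TW54/Sink: an orientation of a tree has a sink

Otherwise choose for every node `t` a neighbour `f t` with `Out t (f t)`; the map `t ↦ s(t, f t)` into the edges is injective (if `s(t, f t) = s(t', f t')`
and `t ≠ t'` then `t' = f t`, `f t' = t`), but a finite tree has one edge less than nodes (`SimpleGraph.IsTree.card_edgeFinset`).
-/

set_option autoImplicit false

namespace Pool.Agent.TW54

theorem exists_sink {ι : Type} [Finite ι] {T : SimpleGraph ι} (hT : T.IsTree)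
    (Out : ι → ι → Prop) (h : ∀ t s, T.Adj t s → ¬ (Out t s ∧ Out s t)) :
    ∃ t, ∀ s, T.Adj t s → ¬ Out t s :=
  SinkS98.exists_sink hT Out h

end Pool.Agent.TW54
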