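import Pool.Agent.TW54.Star
import Pool.Agent.TW54.Count
import Pool.Agent.TW54.Sides
import Pool.Agent.TW54.Sink

/-!
# TW54/Core: a scheme of `p` points forces a bag with at least `p - 1` vertices

`PP cen Y`: the indices which are not the centre of a vertex in `Y`; `NN cen Y`: the vertices of `Y` without centre. `card_PP`: `|NN| + p ≤ |PP| + |Y|` (the
star vertices of `Y` kill at most `|Y| - |NN|` indices). `core`: part (4) of note 3628. For a finite set `Y` with `|Y| + 2 ≤ p` let `K Y = C i j` for a chosen pair `i ≠ j` in `PP Y` with `C i j`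
disjoint from `Y`, if there is one, otherwise `K Y = {a i}` for a chosen `i ∈ PP Y` (`PP Y` is not empty); `a i ∉ Y` for `i ∈ PP Y`. `Out t s`: all `v ∈ K (X t ∩ X s)` are on
the side of `s`; `exists_sink` (`on_not`, `X t ∩ X s = X s ∩ X t`) gives `t`; `on_exists` for `K (X t)` gives `s`. Then as in the note with `all_hit`, `cross_hit`, `on_conn`.
-/

set_option autoImplicit false

namespace Pool.Agent.TW54

open Pool.Agent.HR54 Pool.Agent.RT16

variable {V ι : Type} {G : SimpleGraph V} {T : SimpleGraph ι} {X : ι → Finset V} {p : ℕ}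
  {a : Fin p → V} {C : Fin p → Fin p → Set V} {cen : V → Option (Fin p)}
  {tri : V → Finset (Fin p)}

open Classical in
/-- Indices which are not the centre of a vertex of `Y`. -/
noncomputable def PP (cen : V → Option (Fin p)) (Y : Finset V) : Finset (Fin p) :=
  Finset.univ.filter fun m => ∀ y ∈ Y, cen y ≠ some m

open Classical in
/-- Vertices of `Y` without centre. -/
noncomputable def NN (cen : V → Option (Fin p)) (Y : Finset V) : Finset V :=
  Y.filter fun y => cen y = none

theorem mem_PP {Y : Finset V} {m : Fin p} : m ∈ PP cen Y ↔ ∀ y ∈ Y, cen y ≠ some m := by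
  classical
  simp [PP]

theorem mem_NN {Y : Finset V} {y : V} : y ∈ NN cen Y ↔ y ∈ Y ∧ cen y = none := by
  classical
  simp [NN]

theorem card_PP (cen : V → Option (Fin p)) (Y : Finset V) :
    (NN cen Y).card + p ≤ (PP cen Y).card + Y.card := by
  classical
  have h1 : (Finset.univ \ PP cen Y).card ≤ (Y \ NN cen Y).card := by
    calc (Finset.univ \ PP cen Y).card
        = ((Finset.univ \ PP cen Y).image (fun m => (some m : Option (Fin p)))).card :=
          (Finset.card_image_of_injective _ (Option.some_injective _)).symm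
      _ ≤ ((Y \ NN cen Y).image cen).card := by
          refine Finset.card_le_card ?_
          intro o ho
          obtain ⟨m, hm, rfl⟩ := Finset.mem_image.1 ho
          have hm' : ¬ ∀ y ∈ Y, cen y ≠ some m := fun h =>
            (Finset.mem_sdiff.1 hm).2 (mem_PP.2 h)
          push Not at hm'
          obtain ⟨y, hy, hym⟩ := hm'
          refine Finset.mem_image.2 ⟨y, Finset.mem_sdiff.2 ⟨hy, ?_⟩, hym⟩
          intro hN
          rw [(mem_NN.1 hN).2] at hym
          exact Option.some_ne_none m hym.symm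
      _ ≤ (Y \ NN cen Y).card := Finset.card_image_le
  have h2 : (Finset.univ \ PP cen Y).card + (PP cen Y).card = p := by
    rw [Finset.card_sdiff_add_card_eq_card (Finset.subset_univ _), Finset.card_univ,
      Fintype.card_fin]
  have h3 : (Y \ NN cen Y).card + (NN cen Y).card = Y.card :=
    Finset.card_sdiff_add_card_eq_card (fun y hy => (mem_NN.1 hy).1)
  omega

/-- A hit pair of `PP` is hit by a vertex without centre. -/
theorem hit_NN (hP : Prof a C cen tri) {Y : Finset V} {i j : Fin p} (hi : i ∈ PP cen Y)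
    (hj : j ∈ PP cen Y) (hij : i ≠ j) (h : ∃ y ∈ Y, y ∈ C i j) :
    ∃ y ∈ NN cen Y, i ∈ tri y ∧ j ∈ tri y := by
  obtain ⟨y, hy, hyC⟩ := h
  rcases hc : cen y with _ | c
  · exact ⟨y, mem_NN.2 ⟨hy, hc⟩, hP.other y hc i j hij hyC⟩
  · exfalso
    rcases hP.star y c hc i j hij hyC with rfl | rfl
    · exact mem_PP.1 hi y hy hc
    · exact mem_PP.1 hj y hy hc

theorem point_notMem (hP : Prof a C cen tri) {Y : Finset V} {m : Fin p}
    (hm : m ∈ PP cen Y) : a m ∉ Y :=
  fun h => mem_PP.1 hm _ h (hP.point m)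

theorem K_exists (hS : Scheme G a C) (hP : Prof a C cen tri) (Y : Finset V)
    (hY : Y.card + 2 ≤ p) : ∃ K : Set V, (G.induce K).Preconnected ∧ K.Nonempty ∧
      (∀ v ∈ K, v ∉ Y) ∧
      ((∃ i ∈ PP cen Y, ∃ j ∈ PP cen Y, i ≠ j ∧ a i ∈ K ∧ a j ∈ K) ∨
        ((∀ i ∈ PP cen Y, ∀ j ∈ PP cen Y, i ≠ j → ∃ y ∈ Y, y ∈ C i j) ∧
          ∃ i ∈ PP cen Y, a i ∈ K)) := by
  by_cases h : ∃ i ∈ PP cen Y, ∃ j ∈ PP cen Y, i ≠ j ∧ ∀ y ∈ Y, y ∉ C i j
  · obtain ⟨i, hi, j, hj, hij, hn⟩ := h
    have h1 : a i ∈ C i j := hS.mem i j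
    have h2 : a j ∈ C i j := by
      rw [hS.symm i j]
      exact hS.mem j i
    exact ⟨C i j, hS.conn i j, ⟨a i, h1⟩, fun v hv hvY => hn v hvY hv,
      Or.inl ⟨i, hi, j, hj, hij, h1, h2⟩⟩
  · push Not at h
    have hc := card_PP cen Y
    obtain ⟨i, hi⟩ : (PP cen Y).Nonempty := Finset.card_pos.1 (by omega)
    refine ⟨{a i}, ?_, ⟨a i, rfl⟩, ?_, Or.inr ⟨h, i, hi, rfl⟩⟩
    · exact (conn_singleton (a i)).preconnected
    · intro v hv
      rw [Set.mem_singleton_iff] at hv
      rw [hv]
      exact point_notMem hP hi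

theorem core [Finite ι] (hX : TreeDec G T X) (hp : 3 ≤ p) (hS : Scheme G a C)
    (hinj : Function.Injective a) (ha : ∀ m i j, m ≠ i → m ≠ j → i ≠ j → a m ∉ C i j)
    (hw : ∀ t, (X t).card + 2 ≤ p) : False := by
  classical
  obtain ⟨cen, tri, hP⟩ := exists_prof hp hS hinj ha
  have hKex : ∀ Y : Finset V, ∃ K : Set V, Y.card + 2 ≤ p → ((G.induce K).Preconnected ∧
      K.Nonempty ∧ (∀ v ∈ K, v ∉ Y) ∧
      ((∃ i ∈ PP cen Y, ∃ j ∈ PP cen Y, i ≠ j ∧ a i ∈ K ∧ a j ∈ K) ∨
        ((∀ i ∈ PP cen Y, ∀ j ∈ PP cen Y, i ≠ j → ∃ y ∈ Y, y ∈ C i j) ∧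
          ∃ i ∈ PP cen Y, a i ∈ K))) := by
    intro Y
    by_cases hY : Y.card + 2 ≤ p
    · obtain ⟨K, hK⟩ := K_exists hS hP Y hY
      exact ⟨K, fun _ => hK⟩
    · exact ⟨∅, fun h => absurd h hY⟩
  choose K hK using hKex
  have hYc : ∀ t s, (X t ∩ X s).card + 2 ≤ p := fun t s =>
    le_trans (Nat.add_le_add_right (Finset.card_le_card Finset.inter_subset_left) 2) (hw t)
  obtain ⟨t, ht⟩ := exists_sink hX.tree (fun t s => ∀ v ∈ K (X t ∩ X s), On T X t s v) (by
    rintro t s hts ⟨h1, h2⟩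
    obtain ⟨-, ⟨v, hv⟩, hd, -⟩ := hK _ (hYc t s)
    refine on_not hX hts (v := v) ?_ (h1 v hv) (h2 v ?_)
    · rintro ⟨h3, h4⟩
      exact hd v hv (Finset.mem_inter.2 ⟨h3, h4⟩)
    · rw [Finset.inter_comm]
      exact hv)
  obtain ⟨hc1, hne1, hd1, hcase⟩ := hK _ (hw t)
  obtain ⟨s, hts, hon⟩ := on_exists hX t hc1 hne1 hd1
  set Y := X t ∩ X s with hYdef
  have hYm : ∀ v, v ∉ Y → ¬ (v ∈ X t ∧ v ∈ X s) := fun v hv h =>
    hv (Finset.mem_inter.2 ⟨h.1, h.2⟩)
  have hYm' : ∀ v, v ∉ Y → ¬ (v ∈ X s ∧ v ∈ X t) := fun v hv h =>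
    hv (Finset.mem_inter.2 ⟨h.2, h.1⟩)
  have hsink := ht s hts
  rw [← hYdef] at hsink
  have hne : Y ≠ X t := by
    intro he
    apply hsink
    rw [he]
    exact hon
  have hYsub : Y ⊆ X t := Finset.inter_subset_left
  have hY3 : Y.card + 3 ≤ p := by
    have h1 := Finset.card_lt_card (Finset.ssubset_iff_subset_ne.2 ⟨hYsub, hne⟩)
    have h2 := hw t
    omega
  have hPPY := card_PP cen Y
  obtain ⟨hc2, hne2, hd2, hcase2⟩ := hK Y (by omega)
  -- the set `K Y` is on the side of `t`
  have honY : ∀ v ∈ K Y, On T X s t v := by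
    push Not at hsink
    obtain ⟨v, hv, hnv⟩ := hsink
    have h1 : On T X s t v := (on_or hX hts v).resolve_left hnv
    intro w hw'
    exact on_conn hX hts.symm hc2 (fun v hv => hYm' v (hd2 v hv)) hv hw' h1
  -- two points of `PP Y` on the side of `t`
  obtain ⟨i, hi, j, hj, hij, hai, haj⟩ : ∃ i ∈ PP cen Y, ∃ j ∈ PP cen Y, i ≠ j ∧
      a i ∈ K Y ∧ a j ∈ K Y := by
    rcases hcase2 with h | ⟨hall, -⟩
    · exact h
    · exfalso
      have h1 := all_hit (PP cen Y) (NN cen Y) tri hP.three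
        (fun i hi j hj hij => hit_NN hP hi hj hij (hall i hi j hj hij)) (by omega)
      omega
  -- at most one point of `PP Y` on the side of `s`
  have hone : ∀ m ∈ PP cen Y, ∀ n ∈ PP cen Y, ¬ On T X s t (a m) → ¬ On T X s t (a n) →
      m = n := by
    intro m hm n hn hm' hn'
    by_contra hmn
    let A := (PP cen Y).filter fun m => On T X s t (a m)
    let B := (PP cen Y).filter fun m => ¬ On T X s t (a m)
    have hAB : A.card + B.card = (PP cen Y).card :=
      Finset.card_filter_add_card_filter_not _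
    have hA : 2 ≤ A.card := by
      have hsub : ({i, j} : Finset (Fin p)) ⊆ A := by
        intro q hq
        rcases Finset.mem_insert.1 hq with rfl | hq
        · exact Finset.mem_filter.2 ⟨hi, honY _ hai⟩
        · rw [Finset.mem_singleton] at hq
          subst hq
          exact Finset.mem_filter.2 ⟨hj, honY _ haj⟩
      have := Finset.card_le_card hsub
      rwa [Finset.card_pair hij] at this
    have hB : 2 ≤ B.card := by
      have hsub : ({m, n} : Finset (Fin p)) ⊆ B := by
        intro q hq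
        rcases Finset.mem_insert.1 hq with rfl | hq
        · exact Finset.mem_filter.2 ⟨hm, hm'⟩
        · rw [Finset.mem_singleton] at hq
          subst hq
          exact Finset.mem_filter.2 ⟨hn, hn'⟩
      have := Finset.card_le_card hsub
      rwa [Finset.card_pair hmn] at this
    have hdis : Disjoint A B := Finset.disjoint_filter_filter_not _ _ _
    have hcross := cross_hit A B hdis (NN cen Y) tri hP.three (by
      intro x hx y hy
      obtain ⟨hx1, hx2⟩ := Finset.mem_filter.1 hx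
      obtain ⟨hy1, hy2⟩ := Finset.mem_filter.1 hy
      have hxy : x ≠ y := by
        rintro rfl
        exact hy2 hx2
      refine hit_NN hP hx1 hy1 hxy ?_
      by_contra hno
      push Not at hno
      refine hy2 (on_conn hX hts.symm (hS.conn x y) (fun v hv => hYm' v ?_) (hS.mem x y) ?_
        hx2)
      · intro hvY
        exact hno v hvY hv
      · rw [hS.symm x y]
        exact hS.mem y x)
    have h5 : (NN cen Y).card + 3 ≤ A.card + B.card := by omega
    nlinarith
  have hnot : ∀ m ∈ PP cen Y, On T X t s (a m) → ¬ On T X s t (a m) := fun m hm h1 h2 =>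
    on_not hX hts (hYm _ (point_notMem hP hm)) h1 h2
  have hPPsub : ∀ m ∈ PP cen (X t), m ∈ PP cen Y := fun m hm =>
    mem_PP.2 fun y hy => mem_PP.1 hm y (hYsub hy)
  rcases hcase with ⟨k, hk, l, hl, hkl, hak, hal⟩ | ⟨hall, k, hk, hak⟩
  · exact hkl (hone k (hPPsub k hk) l (hPPsub l hl) (hnot k (hPPsub k hk) (hon _ hak))
      (hnot l (hPPsub l hl) (hon _ hal)))
  · have hPPX := card_PP cen (X t)
    have hwt := hw t
    have h1 := all_hit (PP cen (X t)) (NN cen (X t)) tri hP.three
      (fun i hi j hj hij => hit_NN hP hi hj hij (hall i hi j hj hij)) (by omega)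
    have hNsub : NN cen Y ⊆ NN cen (X t) := fun y hy =>
      mem_NN.2 ⟨hYsub (mem_NN.1 hy).1, (mem_NN.1 hy).2⟩
    have hN1 : (NN cen Y).card ≤ 1 := (Finset.card_le_card hNsub).trans h1.2.le
    have hkY := hPPsub k hk
    -- a point `m` such that the pair `k m` is not hit
    obtain ⟨m, hm, hmk, hno⟩ : ∃ m ∈ PP cen Y, m ≠ k ∧ ∀ y ∈ Y, y ∉ C k m := by
      by_contra hcon
      push Not at hcon
      have hcon' : ∀ m ∈ PP cen Y, m ≠ k → ∃ y ∈ NN cen Y, k ∈ tri y ∧ m ∈ tri y :=
        fun m hm hmk => hit_NN hP hkY hm hmk.symm (hcon m hm hmk)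
      have hsub : (PP cen Y).erase k ⊆ (NN cen Y).biUnion fun y =>
          if k ∈ tri y then (tri y).erase k else ∅ := by
        intro m hm
        obtain ⟨hmk, hm'⟩ := Finset.mem_erase.1 hm
        obtain ⟨y, hy, hky, hmy⟩ := hcon' m hm' hmk
        refine Finset.mem_biUnion.2 ⟨y, hy, ?_⟩
        rw [if_pos hky]
        exact Finset.mem_erase.2 ⟨hmk, hmy⟩
      have h2 : ∀ y ∈ NN cen Y, (if k ∈ tri y then (tri y).erase k else ∅).card ≤ 2 := by
        intro y _
        split_ifs with hky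
        · rw [Finset.card_erase_of_mem hky]
          have := hP.three y
          omega
        · simp
      have h3 := (Finset.card_le_card hsub).trans Finset.card_biUnion_le
      have h4 := Finset.sum_le_card_nsmul (NN cen Y) _ 2 h2
      rw [Finset.card_erase_of_mem hkY] at h3
      rw [smul_eq_mul] at h4
      omega
    refine hmk (hone m hm k hkY (hnot m hm ?_) (hnot k hkY (hon _ hak)))
    refine on_conn hX hts (hS.conn k m) (fun v hv => hYm v ?_) (hS.mem k m) ?_ (hon _ hak)
    · intro hvY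
      exact hno v hvY hv
    · rw [hS.symm k m]
      exact hS.mem m k

end Pool.Agent.TW54
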