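import Pool.Agent.TW54.Star
import Pool.Agent.TW54.Count
import Pool.Agent.TW54.Sides
import Pool.Agent.TW54.Sink

/-!
# TW54/CoreS62: a scheme of `p` points forces a bag with at least `p - 1` vertices
-/

set_option autoImplicit false

namespace Pool.Agent.TW54.S62

open Pool.Agent.HR54 Pool.Agent.RT16 Finset

variable {V ι : Type} {G : SimpleGraph V} {T : SimpleGraph ι} {X : ι → Finset V} {p : ℕ}
  {a : Fin p → V} {C : Fin p → Fin p → Set V}

open Classical in
/-- The indices which are not the centre of a vertex of `Y`. -/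
noncomputable def PP (cen : V → Option (Fin p)) (Y : Finset V) : Finset (Fin p) :=
  univ.filter (fun i => ∀ y ∈ Y, cen y ≠ some i)

open Classical in
/-- The vertices of `Y` without centre. -/
noncomputable def NN (cen : V → Option (Fin p)) (Y : Finset V) : Finset V :=
  Y.filter (fun y => cen y = none)

theorem mem_PP {cen : V → Option (Fin p)} {Y : Finset V} {i : Fin p} :
    i ∈ PP cen Y ↔ ∀ y ∈ Y, cen y ≠ some i := by
  unfold PP
  rw [mem_filter]
  exact ⟨fun h => h.2, fun h => ⟨mem_univ _, h⟩⟩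

theorem mem_NN {cen : V → Option (Fin p)} {Y : Finset V} {y : V} :
    y ∈ NN cen Y ↔ y ∈ Y ∧ cen y = none := by
  unfold NN
  rw [mem_filter]

theorem card_PP (cen : V → Option (Fin p)) (Y : Finset V) :
    (NN cen Y).card + p ≤ (PP cen Y).card + Y.card := by
  classical
  have h1 : ((PP cen Y)ᶜ).card ≤ (Y.filter (fun y => ¬ cen y = none)).card := by
    have h : ∀ i ∈ (PP cen Y)ᶜ, ∃ y ∈ Y, cen y = some i := by
      intro i hi
      rw [mem_compl, mem_PP] at hi
      push Not at hi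
      exact hi
    have h5 : ((PP cen Y)ᶜ).image (some : Fin p → Option (Fin p)) ⊆
        (Y.filter (fun y => ¬ cen y = none)).image cen := by
      intro o ho
      obtain ⟨i, hi, rfl⟩ := mem_image.1 ho
      obtain ⟨y, hy, hyi⟩ := h i hi
      exact mem_image.2 ⟨y, mem_filter.2 ⟨hy, by rw [hyi]; exact Option.some_ne_none i⟩, hyi⟩
    have h6 := card_le_card h5
    rw [card_image_of_injective _ (Option.some_injective _)] at h6
    exact h6.trans card_image_le
  have h2 : (NN cen Y).card + (Y.filter (fun y => ¬ cen y = none)).card = Y.card := by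
    have h3 : NN cen Y = Y.filter (fun y => cen y = none) := by
      ext y
      rw [mem_NN, mem_filter]
    rw [h3]
    exact card_filter_add_card_filter_not _
  have h3 : (PP cen Y).card + ((PP cen Y)ᶜ).card = p := by
    rw [card_add_card_compl, Fintype.card_fin]
  omega

theorem hit_tri {cen : V → Option (Fin p)} {tri : V → Finset (Fin p)} (hP : Prof a C cen tri)
    {Y : Finset V} {i j : Fin p} (hi : i ∈ PP cen Y) (hj : j ∈ PP cen Y) (hij : i ≠ j)
    {y : V} (hy : y ∈ Y) (hyC : y ∈ C i j) : y ∈ NN cen Y ∧ i ∈ tri y ∧ j ∈ tri y := by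
  rcases hc : cen y with _ | c
  · exact ⟨mem_NN.2 ⟨hy, hc⟩, hP.other y hc i j hij hyC⟩
  · exfalso
    rcases hP.star y c hc i j hij hyC with rfl | rfl
    · exact mem_PP.1 hi y hy hc
    · exact mem_PP.1 hj y hy hc

theorem notMem {cen : V → Option (Fin p)} {tri : V → Finset (Fin p)} (hP : Prof a C cen tri)
    {Y : Finset V} {i : Fin p} (hi : i ∈ PP cen Y) : a i ∉ Y := fun h =>
  mem_PP.1 hi _ h (hP.point i)

theorem PP_mono {cen : V → Option (Fin p)} {Y Z : Finset V} (h : Y ⊆ Z) :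
    PP cen Z ⊆ PP cen Y := fun _ hi => mem_PP.2 fun y hy => mem_PP.1 hi y (h hy)

theorem NN_mono {cen : V → Option (Fin p)} {Y Z : Finset V} (h : Y ⊆ Z) :
    NN cen Y ⊆ NN cen Z := fun _ hi => mem_NN.2 ⟨h (mem_NN.1 hi).1, (mem_NN.1 hi).2⟩

/-- The choice of `K`. -/
theorem exists_K {cen : V → Option (Fin p)} (Y : Finset V) (hY : Y.card + 2 ≤ p) :
    ∃ K : Set V, (∃ i ∈ PP cen Y, ∃ j ∈ PP cen Y, i ≠ j ∧ K = C i j ∧ ∀ y ∈ Y, y ∉ C i j) ∨
      ((∀ i ∈ PP cen Y, ∀ j ∈ PP cen Y, i ≠ j → ∃ y ∈ Y, y ∈ C i j) ∧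
        ∃ i ∈ PP cen Y, K = {a i}) := by
  by_cases h : ∃ i ∈ PP cen Y, ∃ j ∈ PP cen Y, i ≠ j ∧ ∀ y ∈ Y, y ∉ C i j
  · obtain ⟨i, hi, j, hj, hij, h⟩ := h
    exact ⟨C i j, Or.inl ⟨i, hi, j, hj, hij, rfl, h⟩⟩
  · push Not at h
    have h1 := card_PP cen Y
    have h2 : (PP cen Y).Nonempty := by
      rw [← card_pos]
      omega
    obtain ⟨i, hi⟩ := h2
    exact ⟨{a i}, Or.inr ⟨h, i, hi, rfl⟩⟩

theorem core [Finite ι] (hX : TreeDec G T X) (hp : 3 ≤ p) (hS : Scheme G a C)
    (hinj : Function.Injective a) (ha : ∀ m i j, m ≠ i → m ≠ j → i ≠ j → a m ∉ C i j)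
    (hw : ∀ t, (X t).card + 2 ≤ p) : False := by
  classical
  obtain ⟨cen, tri, hP⟩ := exists_prof hp hS hinj ha
  have hK : ∀ Y : Finset V, ∃ K : Set V, Y.card + 2 ≤ p →
      ((∃ i ∈ PP cen Y, ∃ j ∈ PP cen Y, i ≠ j ∧ K = C i j ∧ ∀ y ∈ Y, y ∉ C i j) ∨
      ((∀ i ∈ PP cen Y, ∀ j ∈ PP cen Y, i ≠ j → ∃ y ∈ Y, y ∈ C i j) ∧
        ∃ i ∈ PP cen Y, K = {a i})) := by
    intro Y
    by_cases hY : Y.card + 2 ≤ p
    · obtain ⟨K, hK⟩ := exists_K (a := a) (C := C) (cen := cen) Y hY
      exact ⟨K, fun _ => hK⟩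
    · exact ⟨∅, fun h => absurd h hY⟩
  choose K hK using hK
  have hmem' : ∀ i j, a j ∈ C i j := fun i j => by
    rw [hS.symm]
    exact hS.mem j i
  have hne : ∀ Y : Finset V, Y.card + 2 ≤ p → (K Y).Nonempty := by
    intro Y hY
    rcases hK Y hY with ⟨i, _, j, _, _, h, _⟩ | ⟨_, i, _, h⟩
    · rw [h]
      exact ⟨a i, hS.mem i j⟩
    · rw [h]
      exact Set.singleton_nonempty _
  have hcon : ∀ Y : Finset V, Y.card + 2 ≤ p → (G.induce (K Y)).Preconnected := by
    intro Y hY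
    rcases hK Y hY with ⟨i, _, j, _, _, h, _⟩ | ⟨_, i, _, h⟩
    · rw [h]
      exact hS.conn i j
    · rw [h]
      rintro ⟨u, hu⟩ ⟨v, hv⟩
      rw [Set.mem_singleton_iff] at hu hv
      subst hu hv
      exact SimpleGraph.Reachable.refl _
  have hdis : ∀ Y : Finset V, Y.card + 2 ≤ p → ∀ v ∈ K Y, v ∉ Y := by
    intro Y hY v hv hvY
    rcases hK Y hY with ⟨i, _, j, _, _, h, h'⟩ | ⟨_, i, hi, h⟩
    · rw [h] at hv
      exact h' v hvY hv
    · rw [h, Set.mem_singleton_iff] at hv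
      rw [hv] at hvY
      exact notMem hP hi hvY
  have hcard : ∀ t s, (X t ∩ X s).card + 2 ≤ p := fun t s => by
    have h1 := card_le_card (inter_subset_left : X t ∩ X s ⊆ X t)
    have h2 := hw t
    omega
  obtain ⟨t, ht⟩ := exists_sink hX.tree (fun t s => ∀ v ∈ K (X t ∩ X s), On T X t s v) (by
    rintro t s hts ⟨h1, h2⟩
    obtain ⟨v, hv⟩ := hne _ (hcard t s)
    have h3 := h2 v (by rw [inter_comm]; exact hv)
    refine on_not hX hts (v := v) (fun h => ?_) (h1 v hv) h3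
    exact hdis _ (hcard t s) v hv (mem_inter.2 h))
  obtain ⟨s, hts, hs⟩ := on_exists hX t (hcon (X t) (hw t)) (hne (X t) (hw t))
    (hdis (X t) (hw t))
  have hts' := ht s hts
  obtain ⟨Y, hYd⟩ : ∃ Y : Finset V, Y = X t ∩ X s := ⟨_, rfl⟩
  have hYX : Y ⊆ X t := by rw [hYd]; exact inter_subset_left
  have hYne : Y ≠ X t := by
    intro h
    apply hts'
    rw [← hYd, h]
    exact hs
  have hY3 : Y.card + 3 ≤ p := by
    have h1 := card_lt_card (Finset.ssubset_iff_subset_ne.2 ⟨hYX, hYne⟩)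
    have h2 := hw t
    omega
  have hN3 : (NN cen Y).card + 3 ≤ (PP cen Y).card := by
    have h1 := card_PP cen Y
    omega
  rw [← hYd] at hts'
  have hYdis : ∀ D : Set V, (∀ y ∈ Y, y ∉ D) → ∀ v ∈ D, ¬ (v ∈ X t ∧ v ∈ X s) := by
    intro D hD v hv h
    refine hD v ?_ hv
    rw [hYd]
    exact mem_inter.2 h
  -- not all pairs are hit
  obtain ⟨i, hi, j, hj, hij, hKij, hYij⟩ : ∃ i ∈ PP cen Y, ∃ j ∈ PP cen Y, i ≠ j ∧ K Y = C i j ∧
      ∀ y ∈ Y, y ∉ C i j := by
    rcases hK Y (by omega) with h | ⟨h, _⟩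
    · exact h
    · exfalso
      have h1 := all_hit (PP cen Y) (NN cen Y) tri hP.three (fun i hi j hj hij => by
        obtain ⟨y, hy, hyC⟩ := h i hi j hj hij
        exact ⟨y, hit_tri hP hi hj hij hy hyC⟩) (by omega)
      omega
  have hnot : ∀ w ∈ C i j, ¬ On T X t s w := by
    intro w hw' hon
    apply hts'
    intro v hv
    rw [hKij] at hv
    exact on_conn hX hts (hS.conn i j) (hYdis _ hYij) hw' hv hon
  obtain ⟨A, hA⟩ : ∃ A : Finset (Fin p), A = (PP cen Y).filter (fun m => On T X t s (a m)) :=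
    ⟨_, rfl⟩
  obtain ⟨B, hB⟩ : ∃ B : Finset (Fin p), B = (PP cen Y).filter (fun m => ¬ On T X t s (a m)) :=
    ⟨_, rfl⟩
  have hAB : A.card + B.card = (PP cen Y).card := by
    rw [hA, hB]
    exact card_filter_add_card_filter_not _
  have hmA : ∀ m, m ∈ A ↔ m ∈ PP cen Y ∧ On T X t s (a m) := fun m => by rw [hA, mem_filter]
  have hmB : ∀ m, m ∈ B ↔ m ∈ PP cen Y ∧ ¬ On T X t s (a m) := fun m => by rw [hB, mem_filter]
  have hB2 : 2 ≤ B.card := by
    have h1 : i ∈ B := (hmB i).2 ⟨hi, hnot _ (hS.mem i j)⟩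
    have h2 : j ∈ B := (hmB j).2 ⟨hj, hnot _ (hmem' i j)⟩
    exact one_lt_card.2 ⟨i, h1, j, h2, hij⟩
  have hA1 : A.card ≤ 1 := by
    by_contra hA2
    have h1 := cross_hit A B (by
      rw [disjoint_left]
      intro m h1 h2
      exact ((hmB m).1 h2).2 ((hmA m).1 h1).2) (NN cen Y) tri hP.three (by
      intro m hm n hn
      have hm' := (hmA m).1 hm
      have hn' := (hmB n).1 hn
      have hmn : m ≠ n := by
        rintro rfl
        exact hn'.2 hm'.2
      by_contra hcon2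
      push Not at hcon2
      have hfree : ∀ y ∈ Y, y ∉ C m n := fun y hy hyC => by
        have h := hit_tri hP hm'.1 hn'.1 hmn hy hyC
        exact hcon2 y h.1 h.2.1 h.2.2
      exact hn'.2 (on_conn hX hts (hS.conn m n) (hYdis _ hfree) (hS.mem m n) (hmem' m n) hm'.2))
    have h2 : 2 ≤ A.card := by omega
    have h3 : 2 * (NN cen Y).card + 6 ≤ 2 * (A.card + B.card) := by omega
    nlinarith [Nat.mul_le_mul h2 hB2]
  have key : ∀ k l, k ≠ l → k ∈ PP cen Y → l ∈ PP cen Y → On T X t s (a k) →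
      On T X t s (a l) → False := by
    intro k l hkl h1 h2 h3 h4
    have h5 : 1 < A.card := one_lt_card.2 ⟨k, (hmA k).2 ⟨h1, h3⟩, l, (hmA l).2 ⟨h2, h4⟩, hkl⟩
    omega
  rcases hK (X t) (hw t) with ⟨k, hk, l, hl, hkl, hKt, _⟩ | ⟨hall, k, hk, hKt⟩
  · rw [hKt] at hs
    exact key k l hkl (PP_mono hYX hk) (PP_mono hYX hl) (hs _ (hS.mem k l)) (hs _ (hmem' k l))
  · have h1 := all_hit (PP cen (X t)) (NN cen (X t)) tri hP.three (fun i hi j hj hij => by
        obtain ⟨y, hy, hyC⟩ := hall i hi j hj hij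
        exact ⟨y, hit_tri hP hi hj hij hy hyC⟩) (by
      have h1 := card_PP cen (X t)
      have h2 := hw t
      omega)
    have hN1 : (NN cen Y).card ≤ 1 := by
      have h2 := card_le_card (NN_mono (cen := cen) hYX)
      omega
    have honk : On T X t s (a k) := hs _ (by rw [hKt]; exact Set.mem_singleton _)
    have hkY : k ∈ PP cen Y := PP_mono hYX hk
    obtain ⟨m, hm, hmk, hmt⟩ : ∃ m ∈ PP cen Y, m ≠ k ∧
        ∀ y ∈ NN cen Y, ¬ (k ∈ tri y ∧ m ∈ tri y) := by
      rcases Nat.eq_zero_or_pos (NN cen Y).card with h0 | h0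
      · have h2 : 0 < ((PP cen Y).erase k).card := by
          rw [card_erase_of_mem hkY]
          omega
        obtain ⟨m, hm⟩ := card_pos.1 h2
        rw [mem_erase] at hm
        refine ⟨m, hm.2, hm.1, fun y hy => ?_⟩
        rw [card_eq_zero] at h0
        rw [h0] at hy
        exact absurd hy (notMem_empty _)
      · obtain ⟨y, hy⟩ := card_eq_one.1 (by omega : (NN cen Y).card = 1)
        by_cases hky : k ∈ tri y
        · have h2 : 0 < (PP cen Y \ tri y).card := by
            have h3 := le_card_sdiff (tri y) (PP cen Y)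
            have h4 := hP.three y
            omega
          obtain ⟨m, hm⟩ := card_pos.1 h2
          rw [mem_sdiff] at hm
          refine ⟨m, hm.1, ?_, fun z hz h => ?_⟩
          · rintro rfl
            exact hm.2 hky
          · rw [hy, mem_singleton] at hz
            rw [hz] at h
            exact hm.2 h.2
        · have h2 : 0 < ((PP cen Y).erase k).card := by
            rw [card_erase_of_mem hkY]
            omega
          obtain ⟨m, hm⟩ := card_pos.1 h2
          rw [mem_erase] at hm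
          refine ⟨m, hm.2, hm.1, fun z hz h => ?_⟩
          rw [hy, mem_singleton] at hz
          rw [hz] at h
          exact hky h.1
    have hfree : ∀ y ∈ Y, y ∉ C k m := fun y hy hyC => by
      have h := hit_tri hP hkY hm hmk.symm hy hyC
      exact hmt y h.1 h.2
    exact key k m hmk.symm hkY hm honk
      (on_conn hX hts (hS.conn k m) (hYdis _ hfree) (hS.mem k m) (hmem' k m) honk)

end Pool.Agent.TW54.S62
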