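import Pool.Agent.RT16.FamR

/-!
# TW54/Defs (MP_93e89b_co): treewidth and the Radon property, definitions

Paper proof: note 3628. `TreeDec G T X`: `T` is a tree, the finite sets `X t` (bags) are a tree decomposition of `G`. `Scheme`: the sets
`C i j` (hulls of the pairs of points which refute the Radon property).
-/

set_option autoImplicit false

namespace Pool.Agent.TW54

open Pool.Agent.HR54 Pool.Agent.RT16

/-- The bags `X t`, `t` a node of the tree `T`, are a tree decomposition of `G`. -/
structure TreeDec {V ι : Type} (G : SimpleGraph V) (T : SimpleGraph ι) (X : ι → Finset V) :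
    Prop where
  tree : T.IsTree
  vert : ∀ v, ∃ t, v ∈ X t
  edge : ∀ u v, G.Adj u v → ∃ t, u ∈ X t ∧ v ∈ X t
  conn : ∀ v, (T.induce {t | v ∈ X t}).Preconnected

/-- The graph `G` has a tree decomposition with bags of at most `k + 1` vertices. -/
def TreewidthLE {V : Type} (G : SimpleGraph V) (k : ℕ) : Prop :=
  ∃ (n : ℕ) (T : SimpleGraph (Fin n)) (X : Fin n → Finset V), TreeDec G T X ∧
    ∀ t, (X t).card ≤ k + 1

/-- Connected sets `C i j` which contain `a i` and `a j`; disjoint pairs have disjoint sets. -/
structure Scheme {V : Type} (G : SimpleGraph V) {p : ℕ} (a : Fin p → V)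
    (C : Fin p → Fin p → Set V) : Prop where
  symm : ∀ i j, C i j = C j i
  mem : ∀ i j, a i ∈ C i j
  conn : ∀ i j, (G.induce (C i j)).Preconnected
  disj : ∀ i j k l, i ≠ k → i ≠ l → j ≠ k → j ≠ l → i ≠ j → k ≠ l → Disjoint (C i j) (C k l)

/-- Centres of star vertices (`cen y = some c`: every pair `i j` with `y ∈ C i j` contains `c`), and
sets `tri y` for the other vertices. -/
structure Prof {V : Type} {p : ℕ} (a : Fin p → V) (C : Fin p → Fin p → Set V)
    (cen : V → Option (Fin p)) (tri : V → Finset (Fin p)) : Prop where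
  three : ∀ y, (tri y).card ≤ 3
  star : ∀ y c, cen y = some c → ∀ i j, i ≠ j → y ∈ C i j → i = c ∨ j = c
  other : ∀ y, cen y = none → ∀ i j, i ≠ j → y ∈ C i j → i ∈ tri y ∧ j ∈ tri y
  point : ∀ m, cen (a m) = some m

/-- The node `u` is on the side of `s` of the edge `t s` of the tree. -/
def Far {ι : Type} (T : SimpleGraph ι) (t s u : ι) : Prop :=
  (T.deleteEdges {s(t, s)}).Reachable u s

/-- The vertex `v` occurs in a bag on the side of `s` of the edge `t s`. -/
def On {V ι : Type} (T : SimpleGraph ι) (X : ι → Finset V) (t s : ι) (v : V) : Prop :=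
  ∃ u, v ∈ X u ∧ Far T t s u

end Pool.Agent.TW54
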