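import Pool.Agent.TW54.Defs

/-!
# TW54/SharpA: the tree decomposition of the example
-/

set_option autoImplicit false

namespace Pool.Agent.TW54

/-- the bags -/
def sharpBag (k : ℕ) (t : Fin 3) : Finset (Fin (k + 3)) :=
  Finset.univ.filter fun x => 3 ≤ x.1 ∨ x.1 = t.1

theorem mem_sharpBag {k : ℕ} {t : Fin 3} {x : Fin (k + 3)} :
    x ∈ sharpBag k t ↔ 3 ≤ x.1 ∨ x.1 = t.1 := by
  simp [sharpBag]

theorem card_sharpBag (k : ℕ) (t : Fin 3) : (sharpBag k t).card ≤ k + 1 := by
  have h : (sharpBag k t).card ≤ (Finset.range (k + 1)).card := by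
    refine Finset.card_le_card_of_injOn (fun x => if 3 ≤ x.1 then x.1 - 2 else 0) ?_ ?_
    · intro x hx
      have hx2 := x.2
      simp only [Finset.coe_range, Set.mem_Iio]
      split_ifs <;> omega
    · intro x hx y hy hxy
      have hx1 := mem_sharpBag.1 hx
      have hy1 := mem_sharpBag.1 hy
      have ht := t.2
      simp only at hxy
      apply Fin.ext
      split_ifs at hxy <;> omega
  simpa using h

theorem sharp_dec (k : ℕ) (G : SimpleGraph (Fin (k + 3)))
    (hG : ∀ x y, G.Adj x y → ¬ (x.1 < 3 ∧ y.1 < 3)) :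
    TreeDec G (SimpleGraph.starGraph (1 : Fin 3)) (sharpBag k) where
  tree := SimpleGraph.isTree_starGraph 1
  vert := by
    intro v
    by_cases h : v.1 < 3
    · exact ⟨⟨v.1, h⟩, mem_sharpBag.2 (Or.inr rfl)⟩
    · exact ⟨0, mem_sharpBag.2 (Or.inl (by omega))⟩
  edge := by
    intro u v huv
    have h := hG u v huv
    by_cases hu : u.1 < 3
    · have hv : 3 ≤ v.1 := by omega
      exact ⟨⟨u.1, hu⟩, mem_sharpBag.2 (Or.inr rfl), mem_sharpBag.2 (Or.inl hv)⟩
    · by_cases hv : v.1 < 3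
      · exact ⟨⟨v.1, hv⟩, mem_sharpBag.2 (Or.inl (by omega)), mem_sharpBag.2 (Or.inr rfl)⟩
      · exact ⟨0, mem_sharpBag.2 (Or.inl (by omega)), mem_sharpBag.2 (Or.inl (by omega))⟩
  conn := by
    intro v
    by_cases h : 3 ≤ v.1
    · -- all nodes
      have h1 : ∀ t : Fin 3, t ∈ {t | v ∈ sharpBag k t} := fun t => mem_sharpBag.2 (Or.inl h)
      have hr : ∀ t : {t | v ∈ sharpBag k t},
          ((SimpleGraph.starGraph (1 : Fin 3)).induce {t | v ∈ sharpBag k t}).Reachable t
            ⟨1, h1 1⟩ := by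
        rintro ⟨t, ht⟩
        by_cases h2 : t = 1
        · subst h2
          exact SimpleGraph.Reachable.refl _
        · refine SimpleGraph.Adj.reachable ?_
          exact SimpleGraph.starGraph_adj.2 ⟨h2, Or.inr rfl⟩
      intro s t
      exact (hr s).trans (hr t).symm
    · -- one node
      rintro ⟨s, hs⟩ ⟨t, ht⟩
      have hs1 := mem_sharpBag.1 hs
      have ht1 := mem_sharpBag.1 ht
      have hst : s = t := by
        apply Fin.ext
        omega
      subst hst
      exact SimpleGraph.Reachable.refl _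

theorem sharp_width_aux (k : ℕ) (G : SimpleGraph (Fin (k + 3)))
    (hG : ∀ x y, G.Adj x y → ¬ (x.1 < 3 ∧ y.1 < 3)) : TreewidthLE G k :=
  ⟨3, _, sharpBag k, sharp_dec k G hG, card_sharpBag k⟩

end Pool.Agent.TW54
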