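import Pool.Agent.TW54.Defs

/-!
# TW54/SharpS63: the convexity of the example refutes the Radon property of order `k + 2`

Stated for the graph `G` with `G.Adj x y ↔ x ≠ y ∧ ¬ (x.1 < 3 ∧ y.1 < 3)`, so that this file does not import TW54/Sharp.
-/

set_option autoImplicit false

namespace Pool.Agent.TW54.SharpS63

open Pool.Agent.HR54

/-- the convex sets -/
def cvx (k : ℕ) (z : Fin (k + 3)) : Set (Set (Fin (k + 3))) :=
  {A | ∀ x ∈ A, ∀ y ∈ A, x ≠ y → x.1 < 3 → y.1 < 3 → z ∈ A}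

theorem isConvexity {k : ℕ} {G : SimpleGraph (Fin (k + 3))}
    (hG : ∀ x y, G.Adj x y ↔ x ≠ y ∧ ¬ (x.1 < 3 ∧ y.1 < 3)) {z : Fin (k + 3)} (hz : 3 ≤ z.1) :
    IsConvexity G (cvx k z) where
  conn := by
    intro S hS
    have hadj : ∀ x y : S, G.Adj x.1 y.1 → (G.induce S).Reachable x y := by
      intro x y h
      exact SimpleGraph.Adj.reachable (G := G.induce S) (show G.Adj x.1 y.1 from h)
    intro x y
    by_cases hxy : x.1 = y.1
    · rw [Subtype.ext hxy]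
    by_cases hs : x.1.1 < 3 ∧ y.1.1 < 3
    · have hzS : z ∈ S := hS x.1 x.2 y.1 y.2 hxy hs.1 hs.2
      have h1 : G.Adj x.1 z := by
        rw [hG]
        refine ⟨fun h => ?_, fun h => ?_⟩
        · rw [h] at hs
          omega
        · omega
      have h2 : G.Adj z y.1 := by
        rw [hG]
        refine ⟨fun h => ?_, fun h => ?_⟩
        · rw [← h] at hs
          omega
        · omega
      exact (hadj x ⟨z, hzS⟩ h1).trans (hadj ⟨z, hzS⟩ y h2)
    · exact hadj x y ((hG _ _).2 ⟨hxy, hs⟩)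
  empty := by
    intro x hx
    exact absurd hx (Set.notMem_empty x)
  univ := by
    intro x _ y _ _ _ _
    exact Set.mem_univ z
  inter := by
    intro S hS T hT x hx y hy hxy h1 h2
    exact ⟨hS x hx.1 y hy.1 hxy h1 h2, hT x hx.2 y hy.2 hxy h1 h2⟩

theorem hull_sub {V : Type} {𝒞 : Set (Set V)} {B K : Set V} (hK : K ∈ 𝒞) (hB : B ⊆ K) :
    hull 𝒞 B ⊆ K := by
  intro x hx
  unfold hull at hx
  rw [Set.mem_sInter] at hx
  exact hx K ⟨hK, hB⟩

/-- one of two disjoint sets has at most one small element -/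
theorem few {k : ℕ} {B C : Set (Fin (k + 3))} (hd : Disjoint B C)
    {x y x' y' : Fin (k + 3)} (hx : x ∈ B) (hy : y ∈ B) (hxy : x ≠ y) (hx3 : x.1 < 3)
    (hy3 : y.1 < 3) (hx' : x' ∈ C) (hy' : y' ∈ C) (hxy' : x' ≠ y') (hx3' : x'.1 < 3)
    (hy3' : y'.1 < 3) : False := by
  have h1 : x ≠ x' := fun h => Set.disjoint_left.1 hd hx (h ▸ hx')
  have h2 : x ≠ y' := fun h => Set.disjoint_left.1 hd hx (h ▸ hy')
  have h3 : y ≠ x' := fun h => Set.disjoint_left.1 hd hy (h ▸ hx')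
  have h4 : y ≠ y' := fun h => Set.disjoint_left.1 hd hy (h ▸ hy')
  have e1 : x.1 ≠ y.1 := fun h => hxy (Fin.ext h)
  have e2 : x'.1 ≠ y'.1 := fun h => hxy' (Fin.ext h)
  have e3 : x.1 ≠ x'.1 := fun h => h1 (Fin.ext h)
  have e4 : x.1 ≠ y'.1 := fun h => h2 (Fin.ext h)
  have e5 : y.1 ≠ x'.1 := fun h => h3 (Fin.ext h)
  have e6 : y.1 ≠ y'.1 := fun h => h4 (Fin.ext h)
  omega

theorem not_meet {k : ℕ} {z : Fin (k + 3)} {B C : Set (Fin (k + 3))} (hd : Disjoint B C)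
    (hzB : z ∉ B)
    (hB : ∀ x ∈ B, ∀ y ∈ B, x ≠ y → x.1 < 3 → y.1 < 3 → False) :
    ¬ (hull (cvx k z) B ∩ hull (cvx k z) C).Nonempty := by
  rintro ⟨w, hwB, hwC⟩
  have h1 : w ∈ B := hull_sub (𝒞 := cvx k z) (K := B)
    (fun x hx y hy hxy h3 h4 => (hB x hx y hy hxy h3 h4).elim) (Set.Subset.refl B) hwB
  have h2 : w ∈ insert z C := hull_sub (𝒞 := cvx k z) (K := insert z C)
    (fun x _ y _ _ _ _ => Set.mem_insert z C) (Set.subset_insert z C) hwC
  rcases h2 with h2 | h2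
  · exact hzB (h2 ▸ h1)
  · exact Set.disjoint_left.1 hd h1 h2

theorem main {k : ℕ} {G : SimpleGraph (Fin (k + 3))}
    (hG : ∀ x y, G.Adj x y ↔ x ≠ y ∧ ¬ (x.1 < 3 ∧ y.1 < 3)) (hk : 1 ≤ k) :
    ∃ 𝒞 : Set (Set (Fin (k + 3))), IsConvexity G 𝒞 ∧ ¬ Radon 𝒞 (k + 2) := by
  let z : Fin (k + 3) := ⟨3, by omega⟩
  refine ⟨cvx k z, isConvexity hG (le_refl 3), ?_⟩
  intro hR
  obtain ⟨B, C, hBA, hCA, hd, hne⟩ := hR (Finset.univ.erase z) (by
    rw [Finset.card_erase_of_mem (Finset.mem_univ z), Finset.card_univ, Fintype.card_fin]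
    omega)
  have hzB : z ∉ B := fun h => by
    have := hBA h
    simp at this
  have hzC : z ∉ C := fun h => by
    have := hCA h
    simp at this
  by_cases hB : ∀ x ∈ B, ∀ y ∈ B, x ≠ y → x.1 < 3 → y.1 < 3 → False
  · exact not_meet hd hzB hB hne
  · have hC : ∀ x ∈ C, ∀ y ∈ C, x ≠ y → x.1 < 3 → y.1 < 3 → False := by
      intro x' hx' y' hy' hxy' h3' h4'
      apply hB
      intro x hx y hy hxy h3 h4
      exact few hd hx hy hxy h3 h4 hx' hy' hxy' h3' h4'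
    rw [Set.inter_comm] at hne
    exact not_meet hd.symm hzC hC hne

end Pool.Agent.TW54.SharpS63
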