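import Pool.Agent.TW54.Defs
import Pool.Agent.TW54.SharpA
import Pool.Agent.TW54.SharpS63

/-!
# TW54/Sharp: the example

Vertices `Fin (k + 3)`, `k ≥ 1`; `0, 1, 2` are pairwise non-adjacent, all other pairs are adjacent (`3` is `z`). Convexity: all sets `A` such that `3 ∈ A` if `A` contains two of
`0, 1, 2`. A set with two vertices of which one is in the core is connected. The `k + 2` vertices different from `3`: disjoint sets `B`, `C` of them have hulls in `B ∪ {3}`, `C`
or `B`, `C ∪ {3}` (only one of them has two of `0, 1, 2`). Tree decomposition: three nodes `0, 1, 2`, path `0 1 2`, bag `t` = the core and the vertex `t`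
(core: the `k` vertices `≥ 3`).
-/

set_option autoImplicit false

namespace Pool.Agent.TW54

open Pool.Agent.HR54 Pool.Agent.RT16

/-- `K_k` joined to three independent vertices `0, 1, 2`. -/
def sharpGraph (k : ℕ) : SimpleGraph (Fin (k + 3)) where
  Adj x y := x ≠ y ∧ ¬ (x.1 < 3 ∧ y.1 < 3)
  symm := ⟨fun _ _ h => ⟨h.1.symm, fun h' => h.2 ⟨h'.2, h'.1⟩⟩⟩
  loopless := ⟨fun _ h => h.1 rfl⟩

theorem sharp_width (k : ℕ) : TreewidthLE (sharpGraph k) k :=
  sharp_width_aux k _ fun _ _ h => h.2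

theorem sharp_radon (k : ℕ) (hk : 1 ≤ k) :
    ∃ 𝒞 : Set (Set (Fin (k + 3))), IsConvexity (sharpGraph k) 𝒞 ∧ ¬ Radon 𝒞 (k + 2) :=
  SharpS63.main (fun _ _ => Iff.rfl) hk

end Pool.Agent.TW54
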