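import Pool.Agent.TW54.Core
import Pool.Agent.TW54.Sharp

/-!
# TW54/Main: assembly

`scheme_of_fam`: `C i j = hull {a i, a j}`. `tw_radon`: if `Radon 𝒞 (k + 3)` fails, `fam_of_not_radon` and `core` with `p = k + 3`.
-/

set_option autoImplicit false

namespace Pool.Agent.TW54

open Pool.Agent.HR54 Pool.Agent.RT16

theorem scheme_of_fam {V : Type} [Finite V] {G : SimpleGraph V} {p : ℕ} {𝒞 : Set (Set V)}
    {a : Fin p → V} (hF : Fam G 𝒞 a) : Scheme G a (fun i j => hull 𝒞 {a i, a j}) ∧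
      Function.Injective a ∧
      ∀ m i j, m ≠ i → m ≠ j → i ≠ j → a m ∉ hull 𝒞 {a i, a j} := by
  have hpair : ∀ i j : Fin p, a '' {i, j} = {a i, a j} := fun i j => Set.image_pair a i j
  refine ⟨⟨fun i j => ?_, fun i j => ?_, fun i j => ?_, fun i j k l h1 h2 h3 h4 _ _ => ?_⟩,
    fun i j hij => ?_, fun m i j h1 h2 _ hm => ?_⟩
  · show hull 𝒞 {a i, a j} = hull 𝒞 {a j, a i}
    rw [Set.pair_comm]
  · exact subset_hull 𝒞 _ (Set.mem_insert _ _)
  · exact hF.conv.conn _ (hull_mem hF.conv _)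
  · have h := hF.disj {i, j} {k, l} (by
      rw [Set.disjoint_left]
      rintro x (rfl | rfl) (rfl | rfl)
      · exact h1 rfl
      · exact h2 rfl
      · exact h3 rfl
      · exact h4 rfl)
    rw [hpair, hpair] at h
    exact h
  · by_contra hne
    have h := hF.disj {i} {j} (Set.disjoint_singleton.2 hne)
    rw [Set.image_singleton, Set.image_singleton] at h
    refine Set.disjoint_left.1 h (subset_hull 𝒞 _ (Set.mem_singleton _)) ?_
    rw [hij]
    exact subset_hull 𝒞 _ (Set.mem_singleton _)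
  · have h := hF.disj {m} {i, j} (by
      rw [Set.disjoint_left]
      rintro x rfl (rfl | rfl)
      · exact h1 rfl
      · exact h2 rfl)
    rw [hpair, Set.image_singleton] at h
    exact Set.disjoint_left.1 h (subset_hull 𝒞 _ (Set.mem_singleton _)) hm

theorem tw_radon {V : Type} [Finite V] {G : SimpleGraph V} {k : ℕ} (hw : TreewidthLE G k)
    {𝒞 : Set (Set V)} (h𝒞 : IsConvexity G 𝒞) : Radon 𝒞 (k + 3) := by
  by_contra hR
  obtain ⟨a, hF⟩ := fam_of_not_radon h𝒞 hR
  obtain ⟨hS, hinj, ha⟩ := scheme_of_fam hF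
  obtain ⟨n, T, X, hX, hc⟩ := hw
  exact core hX (by omega) hS hinj ha (fun t => by have := hc t; omega)

end Pool.Agent.TW54
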