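import Pool.Agent.TW54.Defs

/-!
# TW54/Star: star vertices and the others

`star_or_tri`: the pairs `i j` with `y ∈ C i j` pairwise meet (`disj`). If there is none, any centre will do (`p ≥ 3`). Let `i j` be one. If `i` is
not a centre there is a pair `k l` without `i`, so it is `j l`; if `j` is not a centre there is a pair without `j`, it meets `i j` and `j l`, so it is `i l`:
then all pairs are inside `{i, j, l}` (a pair which meets `i j`, `j l`, `i l`). `exists_prof`: choice; for `y = a m` the pairs `m j` (`j ≠ m`, two of them as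
`p ≥ 3`) contain `a m`; a centre must be `m`, and `m` is a centre: `a m ∈ C i j` with `i, j ≠ m` contradicts `disj` for `i j` and `m l`, `l ≠ i, j, m`
if `p ≥ 4`; (hypothesis `ha`: `a m ∉ C i j` for `m ≠ i, j`). So take `cen (a m) = some m` for the (injective, by `ha`) points and choose for the others.
-/

set_option autoImplicit false

namespace Pool.Agent.TW54

open Pool.Agent.HR54 Pool.Agent.RT16

variable {V : Type} {G : SimpleGraph V} {p : ℕ} {a : Fin p → V} {C : Fin p → Fin p → Set V}

/-- Two of four alternatives are excluded. -/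
theorem or_of_four {α : Type} {x y u v : α} (h : x = u ∨ x = v ∨ y = u ∨ y = v) (h1 : u ≠ x)
    (h2 : u ≠ y) : x = v ∨ y = v := by
  rcases h with h | h | h | h
  · exact absurd h.symm h1
  · exact Or.inl h
  · exact absurd h.symm h2
  · exact Or.inr h

/-- Two of four alternatives are excluded. -/
theorem or_of_four' {α : Type} {x y u v : α} (h : x = u ∨ x = v ∨ y = u ∨ y = v) (h1 : v ≠ x)
    (h2 : v ≠ y) : x = u ∨ y = u := by
  rcases h with h | h | h | h
  · exact Or.inl h
  · exact absurd h.symm h1
  · exact Or.inr h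
  · exact absurd h.symm h2

theorem star_or_tri (hp : 3 ≤ p) (hS : Scheme G a C) (y : V) :
    (∃ c : Fin p, ∀ i j, i ≠ j → y ∈ C i j → i = c ∨ j = c) ∨
      ∃ s : Finset (Fin p), s.card ≤ 3 ∧ ∀ i j, i ≠ j → y ∈ C i j → i ∈ s ∧ j ∈ s := by
  have meet : ∀ i j k l, i ≠ j → k ≠ l → y ∈ C i j → y ∈ C k l →
      i = k ∨ i = l ∨ j = k ∨ j = l := by
    intro i j k l hij hkl h1 h2
    by_contra hcon
    push Not at hcon
    obtain ⟨h3, h4, h5, h6⟩ := hcon
    exact Set.disjoint_left.1 (hS.disj i j k l h3 h4 h5 h6 hij hkl) h1 h2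
  by_contra hcon
  push Not at hcon
  obtain ⟨hA, hB⟩ := hcon
  -- a first pair
  obtain ⟨i, j, hij, hyij, -, -⟩ := hA ⟨0, by omega⟩
  -- a pair without `i`
  obtain ⟨l, hlj, hli, hyjl⟩ : ∃ l, l ≠ j ∧ l ≠ i ∧ y ∈ C j l := by
    obtain ⟨k, l, hkl, hykl, hki, hli⟩ := hA i
    rcases meet i j k l hij hkl hyij hykl with h | h | h | h
    · exact absurd h.symm hki
    · exact absurd h.symm hli
    · subst h
      exact ⟨l, hkl.symm, hli, hykl⟩
    · subst h
      refine ⟨k, hkl, hki, ?_⟩
      rw [hS.symm]
      exact hykl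
  -- a pair without `j`
  have hyil : y ∈ C i l := by
    obtain ⟨k, m, hkm, hykm, hkj, hmj⟩ := hA j
    have h1 : i = k ∨ i = m := by
      rcases meet i j k m hij hkm hyij hykm with h | h | h | h
      · exact Or.inl h
      · exact Or.inr h
      · exact absurd h.symm hkj
      · exact absurd h.symm hmj
    have h2 : l = k ∨ l = m := by
      rcases meet j l k m hlj.symm hkm hyjl hykm with h | h | h | h
      · exact absurd h.symm hkj
      · exact absurd h.symm hmj
      · exact Or.inl h
      · exact Or.inr h
    rcases h1 with h1 | h1 <;> rcases h2 with h2 | h2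
    · exact absurd (h2.trans h1.symm) hli
    · rw [h1, h2]
      exact hykm
    · rw [h1, h2, hS.symm]
      exact hykm
    · exact absurd (h2.trans h1.symm) hli
  obtain ⟨u, v, huv, hyuv, hno⟩ := hB {i, j, l} Finset.card_le_three
  apply hno
  · have h1 := meet i j u v hij huv hyij hyuv
    have h2 := meet j l u v hlj.symm huv hyjl hyuv
    have h3 := meet i l u v hli.symm huv hyil hyuv
    rw [Finset.mem_insert, Finset.mem_insert, Finset.mem_singleton]
    by_contra hu
    push Not at hu
    obtain ⟨hu1, hu2, hu3⟩ := hu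
    have h1' : i = v ∨ j = v := or_of_four h1 hu1 hu2
    have h2' : j = v ∨ l = v := or_of_four h2 hu2 hu3
    have h3' : i = v ∨ l = v := or_of_four h3 hu1 hu3
    rcases h1' with h | h
    · rcases h2' with h' | h'
      · exact hij (h.trans h'.symm)
      · exact hli (h'.trans h.symm)
    · rcases h3' with h' | h'
      · exact hij (h'.trans h.symm)
      · exact hlj (h'.trans h.symm)
  · have h1 := meet i j u v hij huv hyij hyuv
    have h2 := meet j l u v hlj.symm huv hyjl hyuv
    have h3 := meet i l u v hli.symm huv hyil hyuv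
    rw [Finset.mem_insert, Finset.mem_insert, Finset.mem_singleton]
    by_contra hu
    push Not at hu
    obtain ⟨hu1, hu2, hu3⟩ := hu
    have h1' : i = u ∨ j = u := or_of_four' h1 hu1 hu2
    have h2' : j = u ∨ l = u := or_of_four' h2 hu2 hu3
    have h3' : i = u ∨ l = u := or_of_four' h3 hu1 hu3
    rcases h1' with h | h
    · rcases h2' with h' | h'
      · exact hij (h.trans h'.symm)
      · exact hli (h'.trans h.symm)
    · rcases h3' with h' | h'
      · exact hij (h'.trans h.symm)
      · exact hlj (h'.trans h.symm)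

theorem exists_prof (hp : 3 ≤ p) (hS : Scheme G a C) (hinj : Function.Injective a)
    (ha : ∀ m i j, m ≠ i → m ≠ j → i ≠ j → a m ∉ C i j) :
    ∃ (cen : V → Option (Fin p)) (tri : V → Finset (Fin p)), Prof a C cen tri := by
  have h : ∀ y : V, ∃ (c : Option (Fin p)) (t : Finset (Fin p)), t.card ≤ 3 ∧
      (∀ c', c = some c' → ∀ i j, i ≠ j → y ∈ C i j → i = c' ∨ j = c') ∧
      (c = none → ∀ i j, i ≠ j → y ∈ C i j → i ∈ t ∧ j ∈ t) ∧ (∀ m, y = a m → c = some m) := by
    intro y
    by_cases hy : ∃ m, y = a m
    · obtain ⟨m, rfl⟩ := hy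
      refine ⟨some m, ∅, by simp, ?_, ?_, ?_⟩
      · intro c' hc i j hij hm
        have hc' : m = c' := Option.some.inj hc
        subst hc'
        by_contra hcon
        push Not at hcon
        exact ha m i j hcon.1.symm hcon.2.symm hij hm
      · intro hc
        exact absurd hc (by simp)
      · intro m' hm'
        rw [hinj hm']
    · rcases star_or_tri hp hS y with ⟨c, hc⟩ | ⟨s, hs, hs'⟩
      · refine ⟨some c, ∅, by simp, ?_, ?_, ?_⟩
        · intro c' hc' i j hij hm
          have h1 : c = c' := Option.some.inj hc'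
          subst h1
          exact hc i j hij hm
        · intro hc'
          exact absurd hc' (by simp)
        · intro m hm
          exact absurd ⟨m, hm⟩ hy
      · refine ⟨none, s, hs, ?_, ?_, ?_⟩
        · intro c' hc'
          exact absurd hc' (by simp)
        · intro _
          exact hs'
        · intro m hm
          exact absurd ⟨m, hm⟩ hy
  choose cen tri h1 h2 h3 h4 using h
  exact ⟨cen, tri, ⟨h1, h2, h3, fun m => h4 (a m) m rfl⟩⟩

end Pool.Agent.TW54
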