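import Pool.Agent.TW54.Main

/-!
# The Radon property of graph convexities and treewidth

Definitions. HR54/Defs: `IsConvexity G 𝒞`, `hull 𝒞 B`, the Radon property `Radon 𝒞 p`, that is `(R_p)`. TW54/Defs: `TreeDec G T X` (the
bags `X t` at the nodes `t` of the tree `T` are a tree decomposition of `G`), `TreewidthLE G k` (there is a tree decomposition of `G`
with bags of at most `k + 1` vertices).
-/

set_option autoImplicit false

namespace Pool.Agent.TW54.TreewidthRadon

open Pool.Agent.HR54 Pool.Agent.TW54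

/-- Let `k ≥ 1`. Every convexity on a finite graph of treewidth at most `k` has `(R_p)` for all
`p ≥ k + 3`, and some convexity on some finite connected graph of treewidth at most `k` fails
`(R_(k+2))`. -/
theorem result (k : ℕ) (hk : 1 ≤ k) :
    (∀ (V : Type) (_ : Finite V) (G : SimpleGraph V), TreewidthLE G k →
      ∀ 𝒞 : Set (Set V), IsConvexity G 𝒞 → ∀ p : ℕ, k + 3 ≤ p → Radon 𝒞 p) ∧
    ∃ (V : Type) (_ : Finite V) (G : SimpleGraph V), G.Connected ∧ TreewidthLE G k ∧
      ∃ 𝒞 : Set (Set V), IsConvexity G 𝒞 ∧ ¬ Radon 𝒞 (k + 2) := by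
  refine ⟨fun V _ G hw 𝒞 h𝒞 p hp A hA => ?_, ?_⟩
  · obtain ⟨A', hA', hc⟩ := Finset.exists_subset_card_eq (s := A) (n := k + 3) (by omega)
    obtain ⟨B, C, hB, hC, hd, hne⟩ := tw_radon hw h𝒞 A' hc
    exact ⟨B, C, hB.trans (Finset.coe_subset.2 hA'), hC.trans (Finset.coe_subset.2 hA'), hd, hne⟩
  · obtain ⟨𝒞, h𝒞, hR⟩ := sharp_radon k hk
    have h1 := h𝒞.conn _ h𝒞.univ
    have h2 : (sharpGraph k).Preconnected := by
      intro x y
      have h3 := h1 ⟨x, Set.mem_univ _⟩ ⟨y, Set.mem_univ _⟩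
      exact h3.map (SimpleGraph.Embedding.induce (G := sharpGraph k) Set.univ).toHom
    exact ⟨Fin (k + 3), inferInstance, sharpGraph k, ⟨h2⟩, sharp_width k, 𝒞, h𝒞, hR⟩

end Pool.Agent.TW54.TreewidthRadon
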